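import Mathlib

set_option autoImplicit false

namespace Pool.Agent.Results.MP_c4d24c_al.Counterexample

/-- The normal band of triples `(f, l, m)` with `m ≤ f`, `m ≤ l`. -/
@[ext] structure B where
  f : ℕ
  l : ℕ
  m : ℕ
  hf : m ≤ f
  hl : m ≤ l

instance : Semigroup B where
  mul x y := ⟨x.f, y.l, min x.m y.m, (min_le_left _ _).trans x.hf, (min_le_right _ _).trans y.hl⟩
  mul_assoc x y z := B.ext rfl rfl (min_assoc _ _ _)

lemma mul_f (x y : B) : (x * y).f = x.f := rfl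
lemma mul_l (x y : B) : (x * y).l = y.l := rfl
lemma mul_m (x y : B) : (x * y).m = min x.m y.m := rfl

lemma stab {α : Type} (S : ℕ → Set α) (hS : Monotone S) (ρ : ℕ → ℕ)
    (h : ∀ m n, m ≤ n → ρ n ≤ ρ m ∧ (ρ n = ρ m → S n ⊆ S m)) :
    ∃ N, ∀ n, N ≤ n → S n = S N := by
  obtain ⟨_, ⟨N, rfl⟩, hN⟩ := wellFounded_lt.has_min (Set.range ρ) (Set.range_nonempty ρ)
  exact ⟨N, fun n hn => ((h N n hn).2 (le_antisymm (h N n hn).1 (not_lt.mp (hN _ ⟨n, rfl⟩)))).antisymm
    (hS hn)⟩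

def rl (x : WithOne B) : ℕ := WithOne.recOneCoe 0 (fun b => b.l - b.m + 1) x
def rr (x : WithOne B) : ℕ := WithOne.recOneCoe 0 (fun b => b.f - b.m + 1) x

lemma left (h y : WithOne B) : rl y ≤ rl (h * y) ∧ (rl y = rl (h * y) → ∃ k, k * (h * y) = y) := by
  induction h using WithOne.recOneCoe with
  | one => exact ⟨by simp, fun _ => ⟨1, by simp⟩⟩
  | coe h =>
    induction y using WithOne.recOneCoe with
    | one => simp [rl]
    | coe y =>
      have := y.hl
      simp only [rl, ← WithOne.coe_mul, WithOne.recOneCoe_coe, mul_l, mul_m]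
      refine ⟨by omega, fun e => ⟨y, ?_⟩⟩
      rw [← WithOne.coe_mul]
      congr 1
      ext <;> simp only [mul_f, mul_l, mul_m]
      omega

lemma right (h y : WithOne B) : rr y ≤ rr (y * h) ∧ (rr y = rr (y * h) → ∃ k, y * h * k = y) := by
  induction h using WithOne.recOneCoe with
  | one => exact ⟨by simp, fun _ => ⟨1, by simp⟩⟩
  | coe h =>
    induction y using WithOne.recOneCoe with
    | one => simp [rr]
    | coe y =>
      have := y.hf
      simp only [rr, ← WithOne.coe_mul, WithOne.recOneCoe_coe, mul_f, mul_m]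
      refine ⟨by omega, fun e => ⟨y, ?_⟩⟩
      rw [← WithOne.coe_mul]
      congr 1
      ext <;> simp only [mul_f, mul_l, mul_m]
      omega

/-- The principal left ideal `Hx`. -/
def lI {H : Type} [Monoid H] (x : H) : Set H := {z | ∃ h, z = h * x}
/-- The principal right ideal `xH`. -/
def rI {H : Type} [Monoid H] (x : H) : Set H := {z | ∃ h, z = x * h}
/-- The principal two-sided ideal `HxH`. -/
def tI {H : Type} [Monoid H] (x : H) : Set H := {z | ∃ h k, z = h * x * k}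

/-- A monoid with the ACCPL and the ACCPR and a strictly ascending chain of principal two-sided
ideals. -/
theorem result : ∃ (H : Type) (_ : Monoid H),
    (∀ x : ℕ → H, (∀ n, lI (x n) ⊆ lI (x (n + 1))) → ∃ N, ∀ n, N ≤ n → lI (x n) = lI (x N)) ∧
    (∀ x : ℕ → H, (∀ n, rI (x n) ⊆ rI (x (n + 1))) → ∃ N, ∀ n, N ≤ n → rI (x n) = rI (x N)) ∧
    ∃ x : ℕ → H, ∀ n, tI (x n) ⊂ tI (x (n + 1)) := by
  refine ⟨WithOne B, inferInstance, fun x hx => ?_, fun x hx => ?_,
    fun n => (⟨n, n, n, le_rfl, le_rfl⟩ : B), fun n => ⟨?_, fun h => ?_⟩⟩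
  · have hm := monotone_nat_of_le_succ hx
    refine stab _ hm (fun n => rl (x n)) fun m n hmn => ?_
    obtain ⟨h, hh⟩ := hm hmn (⟨1, (one_mul _).symm⟩ : x m ∈ lI (x m))
    refine ⟨hh ▸ (left h _).1, fun e => ?_⟩
    obtain ⟨k, hk⟩ := (left h (x n)).2 (hh ▸ e)
    rintro _ ⟨j, rfl⟩
    exact ⟨j * k, by rw [mul_assoc, hh, hk]⟩
  · have hm := monotone_nat_of_le_succ hx
    refine stab _ hm (fun n => rr (x n)) fun m n hmn => ?_
    obtain ⟨h, hh⟩ := hm hmn (⟨1, (mul_one _).symm⟩ : x m ∈ rI (x m))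
    refine ⟨hh ▸ (right h _).1, fun e => ?_⟩
    obtain ⟨k, hk⟩ := (right h (x n)).2 (hh ▸ e)
    rintro _ ⟨j, rfl⟩
    exact ⟨k * j, by rw [← mul_assoc, hh, hk]⟩
  · rintro _ ⟨h, k, rfl⟩
    refine ⟨h * (⟨n, n, n, le_rfl, le_rfl⟩ : B), (⟨n, n, n, le_rfl, le_rfl⟩ : B) * k, ?_⟩
    simp only [mul_assoc]
    congr 1
    simp only [← mul_assoc, ← WithOne.coe_mul]
    congr 2
    ext <;> simp [mul_f, mul_l, mul_m]
  · obtain ⟨a, b, e⟩ := h ⟨1, 1, by simp; rfl⟩
    induction a using WithOne.recOneCoe <;> induction b using WithOne.recOneCoe <;>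
      simp only [one_mul, mul_one, ← WithOne.coe_mul, WithOne.coe_inj] at e <;>
      have := congrArg B.m e <;> simp only [mul_m] at this <;> omega

end Pool.Agent.Results.MP_c4d24c_al.Counterexample
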